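import Pool.Agent.H88.MC.Targets

/-!
# Second moments of signed sums of centred indicators
-/

set_option autoImplicit false

open Finset

namespace Pool.Agent.H68.E0

open Pool.Agent.H88.MC

/-- the indicator -/
noncomputable def ind {n : ℕ} (U : Finset (Fin n)) (u : Fin n) : ℝ := if u ∈ U then (1 : ℝ) else 0

theorem ind_sq {n : ℕ} (U : Finset (Fin n)) (u : Fin n) : ind U u * ind U u = ind U u := by
  unfold ind
  split_ifs <;> simp

theorem sum_sq {Ω : Type} [Fintype Ω] {n : ℕ} (w : Ω → ℝ) (c : Ω → Fin n → ℝ)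
    (N : Finset (Fin n)) (y : Fin n → ℝ) (hy : ∀ u, y u ^ 2 = 1) (S : ℝ)
    (h1 : ∀ u ∈ N, ∀ v ∈ N, u ≠ v → ∑ ω, w ω * (c ω u * c ω v) = 0)
    (h2 : ∀ u ∈ N, ∑ ω, w ω * (c ω u * c ω u) = S) :
    ∑ ω, w ω * (∑ u ∈ N, c ω u * y u) ^ 2 = #N * S := by
  classical
  have e1 : ∀ ω, w ω * (∑ u ∈ N, c ω u * y u) ^ 2 =
      ∑ u ∈ N, ∑ v ∈ N, y u * y v * (w ω * (c ω u * c ω v)) := by
    intro ω
    rw [sq, Finset.sum_mul_sum, Finset.mul_sum]
    refine Finset.sum_congr rfl fun u _ => ?_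
    rw [Finset.mul_sum]
    exact Finset.sum_congr rfl fun v _ => by ring
  calc ∑ ω, w ω * (∑ u ∈ N, c ω u * y u) ^ 2
      = ∑ ω, ∑ u ∈ N, ∑ v ∈ N, y u * y v * (w ω * (c ω u * c ω v)) :=
        Finset.sum_congr rfl fun ω _ => e1 ω
    _ = ∑ u ∈ N, ∑ v ∈ N, y u * y v * ∑ ω, w ω * (c ω u * c ω v) := by
        rw [Finset.sum_comm]
        refine Finset.sum_congr rfl fun u _ => ?_
        rw [Finset.sum_comm]
        exact Finset.sum_congr rfl fun v _ => (Finset.mul_sum _ _ _).symm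
    _ = ∑ u ∈ N, ∑ v ∈ N, if u = v then S else 0 := by
        refine Finset.sum_congr rfl fun u hu => Finset.sum_congr rfl fun v hv => ?_
        by_cases huv : u = v
        · subst huv
          rw [if_pos rfl, h2 u hu]
          have := hy u
          linear_combination S * this
        · rw [if_neg huv, h1 u hu v hv huv, mul_zero]
    _ = ∑ u ∈ N, S := by
        refine Finset.sum_congr rfl fun u hu => ?_
        rw [Finset.sum_ite_eq, if_pos hu]
    _ = #N * S := by rw [Finset.sum_const, nsmul_eq_mul]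

section

variable {Ω : Type} [Fintype Ω] {n : ℕ} {U : Ω → Finset (Fin n)} {p : ℝ} (hT : TW U p)

include hT

theorem one' (v : Fin n) : ∑ ω, ind (U ω) v = p * Fintype.card Ω := hT.one v

theorem two' {u v : Fin n} (h : u ≠ v) :
    ∑ ω, ind (U ω) u * ind (U ω) v = p ^ 2 * Fintype.card Ω := by
  rw [← hT.two u v h]
  refine Finset.sum_congr rfl fun ω _ => ?_
  unfold ind
  by_cases h1 : u ∈ U ω <;> by_cases h2 : v ∈ U ω <;> simp [h1, h2]

theorem three' {u v w : Fin n} (h1 : u ≠ v) (h2 : u ≠ w) (h3 : v ≠ w) :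
    ∑ ω, ind (U ω) u * (ind (U ω) v * ind (U ω) w) = p ^ 3 * Fintype.card Ω := by
  rw [← hT.three u v w h1 h2 h3]
  refine Finset.sum_congr rfl fun ω _ => ?_
  unfold ind
  by_cases h1 : u ∈ U ω <;> by_cases h2 : v ∈ U ω <;> by_cases h3 : w ∈ U ω <;> simp [h1, h2, h3]

end

/-- (MO1) -/
theorem pf_mo1 : T_MO1 := by
  intro Ω _ n U p hT hp0 hp1 N y hy
  have h := sum_sq (fun _ : Ω => (1 : ℝ)) (fun ω u => ind (U ω) u - p) N y hy
    (p * (1 - p) * Fintype.card Ω) (fun u _ v _ huv => ?_) (fun u _ => ?_)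
  · have e : ∑ ω : Ω, (∑ u ∈ N, ((if u ∈ U ω then (1 : ℝ) else 0) - p) * y u) ^ 2 =
        ∑ ω : Ω, (1 : ℝ) * (∑ u ∈ N, (ind (U ω) u - p) * y u) ^ 2 :=
      Finset.sum_congr rfl fun ω _ => (one_mul _).symm
    rw [e, h]
    have h1 : (0 : ℝ) ≤ #N := Nat.cast_nonneg _
    have h2 : (0 : ℝ) ≤ Fintype.card Ω := Nat.cast_nonneg _
    have h3 : 0 ≤ (#N : ℝ) * Fintype.card Ω * p ^ 2 := by positivity
    nlinarith
  · have e : ∀ ω, (1 : ℝ) * ((ind (U ω) u - p) * (ind (U ω) v - p)) =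
        ind (U ω) u * ind (U ω) v - p * ind (U ω) u - p * ind (U ω) v + p ^ 2 := fun ω => by ring
    simp only [e]
    rw [Finset.sum_add_distrib, Finset.sum_sub_distrib, Finset.sum_sub_distrib, ← Finset.mul_sum,
      ← Finset.mul_sum, two' hT huv, one' hT, one' hT, Finset.sum_const, Finset.card_univ,
      nsmul_eq_mul]
    ring
  · have e : ∀ ω, (1 : ℝ) * ((ind (U ω) u - p) * (ind (U ω) u - p)) =
        (1 - 2 * p) * ind (U ω) u + p ^ 2 := fun ω => by
      have := ind_sq (U ω) u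
      linear_combination this
    simp only [e]
    rw [Finset.sum_add_distrib, ← Finset.mul_sum, one' hT, Finset.sum_const, Finset.card_univ,
      nsmul_eq_mul]
    ring

end Pool.Agent.H68.E0
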