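import Pool.Agent.H68.E0.MO1

/-!
# Second moments on the event that another vertex is hidden
-/

set_option autoImplicit false

open Finset

namespace Pool.Agent.H68.E0

open Pool.Agent.H88.MC

/-- (MO2) -/
theorem pf_mo2 : T_MO2 := by
  intro Ω _ n U p hT hp0 hp1 N y hy v hv
  have hne : ∀ u ∈ N, v ≠ u := by
    rintro u hu rfl
    exact hv hu
  have h := sum_sq (fun ω : Ω => ind (U ω) v) (fun ω u => ind (U ω) u - p) N y hy
    (p ^ 2 * (1 - p) * Fintype.card Ω) (fun u hu w hw huw => ?_) (fun u hu => ?_)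
  · have e : ∑ ω : Ω, (if v ∈ U ω then (1 : ℝ) else 0) *
        (∑ u ∈ N, ((if u ∈ U ω then (1 : ℝ) else 0) - p) * y u) ^ 2 =
        ∑ ω : Ω, ind (U ω) v * (∑ u ∈ N, (ind (U ω) u - p) * y u) ^ 2 := rfl
    rw [e, h]
    have h1 : (0 : ℝ) ≤ #N := Nat.cast_nonneg _
    have h2 : (0 : ℝ) ≤ Fintype.card Ω := Nat.cast_nonneg _
    have h3 : 0 ≤ (#N : ℝ) * Fintype.card Ω * p ^ 3 := by positivity
    nlinarith
  · have e : ∀ ω, ind (U ω) v * ((ind (U ω) u - p) * (ind (U ω) w - p)) =
        ind (U ω) v * (ind (U ω) u * ind (U ω) w) - p * (ind (U ω) v * ind (U ω) u) -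
          p * (ind (U ω) v * ind (U ω) w) + p ^ 2 * ind (U ω) v := fun ω => by ring
    simp only [e]
    rw [Finset.sum_add_distrib, Finset.sum_sub_distrib, Finset.sum_sub_distrib, ← Finset.mul_sum,
      ← Finset.mul_sum, ← Finset.mul_sum, three' hT (hne u hu) (hne w hw) huw,
      two' hT (hne u hu), two' hT (hne w hw), one' hT]
    ring
  · have e : ∀ ω, ind (U ω) v * ((ind (U ω) u - p) * (ind (U ω) u - p)) =
        (1 - 2 * p) * (ind (U ω) v * ind (U ω) u) + p ^ 2 * ind (U ω) v := fun ω => by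
      have := ind_sq (U ω) u
      linear_combination ind (U ω) v * this
    simp only [e]
    rw [Finset.sum_add_distrib, ← Finset.mul_sum, ← Finset.mul_sum, two' hT (hne u hu), one' hT]
    ring

end Pool.Agent.H68.E0
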